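import Mathlib
import Pool.Agent.Q52.PrimLimit

/-!
# Primitive sets under power weightings

For `0 ≤ σ₁ < σ₂ ≤ 1` the maximal weighted density of primitive subsets of `[n]` is strictly
larger for the weight `m ^ (-σ₁)` than for the weight `m ^ (-σ₂)`, for all large `n`.
-/

namespace Pool.Agent.Results.MP_def192_nt.PowerWeights

/-- Primitive sets: no element divides a different element. -/
def IsPrimitive (A : Finset ℕ) : Prop := ∀ a ∈ A, ∀ b ∈ A, a ∣ b → a = b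

/-- `S(f, A)`. -/
def S (f : ℕ → ℝ) (A : Finset ℕ) : ℝ := ∑ a ∈ A, f a

/-- `δ(f, A, n)`. -/
noncomputable def delta (f : ℕ → ℝ) (A : Finset ℕ) (n : ℕ) : ℝ :=
  S f A / S f (Finset.Icc 1 n)

/-- `F(f, n)`, the maximum (a supremum over a finite set) of `δ(f, A, n)` over primitive
`A ⊆ [n]`. -/
noncomputable def F (f : ℕ → ℝ) (n : ℕ) : ℝ :=
  sSup {x : ℝ | ∃ A : Finset ℕ, A ⊆ Finset.Icc 1 n ∧ IsPrimitive A ∧ x = delta f A n}

/-- The weighting `m ↦ m ^ (-σ)`. -/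
noncomputable def pw (σ : ℝ) : ℕ → ℝ := fun m => (m : ℝ) ^ (-σ)

open Pool.Agent.Q52.Behrend Pool.Agent.Q52.PrimLimit Filter Topology

theorem finite_set (f : ℕ → ℝ) (n : ℕ) :
    {x : ℝ | ∃ A : Finset ℕ, A ⊆ Finset.Icc 1 n ∧ IsPrimitive A ∧ x = delta f A n}.Finite := by
  apply ((Finset.Icc 1 n).powerset.finite_toSet.image (fun A => delta f A n)).subset
  rintro _ ⟨A, hA, _, rfl⟩
  exact ⟨A, Finset.mem_coe.2 (Finset.mem_powerset.2 hA), rfl⟩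

theorem nonempty_set (f : ℕ → ℝ) (n : ℕ) :
    {x : ℝ | ∃ A : Finset ℕ, A ⊆ Finset.Icc 1 n ∧ IsPrimitive A ∧ x = delta f A n}.Nonempty :=
  ⟨_, ∅, Finset.empty_subset _, by intro a ha; simp at ha, rfl⟩

theorem exists_F (σ : ℝ) (n : ℕ) : ∃ A : Finset ℕ, A ⊆ Finset.Icc 1 n ∧ Prim A ∧
    F (pw σ) n = Sw σ A / Sw σ (Finset.Icc 1 n) := by
  obtain ⟨A, h1, h2, h3⟩ := (nonempty_set (pw σ) n).csSup_mem (finite_set (pw σ) n)
  exact ⟨A, h1, h2, h3⟩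

theorem le_F (σ : ℝ) (n : ℕ) (A : Finset ℕ) (hA : A ⊆ Finset.Icc 1 n) (hp : Prim A) :
    Sw σ A / Sw σ (Finset.Icc 1 n) ≤ F (pw σ) n :=
  le_csSup (finite_set (pw σ) n).bddAbove ⟨A, hA, hp, rfl⟩

theorem Sw_pos (σ : ℝ) (n : ℕ) (hn : 1 ≤ n) : 0 < Sw σ (Finset.Icc 1 n) := by
  unfold Sw
  apply Finset.sum_pos
  · intro a ha
    have : (0 : ℝ) < a := by exact_mod_cast (Finset.mem_Icc.1 ha).1
    exact Real.rpow_pos_of_pos this _
  · exact ⟨1, Finset.mem_Icc.2 ⟨le_refl _, hn⟩⟩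

theorem F_nonneg (σ : ℝ) (n : ℕ) : 0 ≤ F (pw σ) n := by
  obtain ⟨A, _, _, h⟩ := exists_F σ n
  rw [h]
  exact div_nonneg (Sw_nonneg _ _) (Sw_nonneg _ _)

theorem F_le_one (σ : ℝ) (n : ℕ) : F (pw σ) n ≤ 1 := by
  obtain ⟨A, hA, _, h⟩ := exists_F σ n
  rw [h]
  exact div_le_one_of_le₀ (Sw_mono σ hA) (Sw_nonneg _ _)

/-- lower bound for `F`. -/
theorem F_lower (σ : ℝ) (h0 : 0 ≤ σ) (h1 : σ < 1) (n : ℕ) (hn : 1 ≤ n) :
    (1 - σ) / 2 ≤ F (pw σ) n := by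
  have hβ : 0 < 1 - σ := by linarith
  have hn0 : (0 : ℝ) < n := by exact_mod_cast hn
  let A := Finset.Ioc (n / 2) n
  have hA : A ⊆ Finset.Icc 1 n := by
    intro a ha
    rw [Finset.mem_Ioc] at ha
    rw [Finset.mem_Icc]
    omega
  have hp : Prim A := by
    intro a ha b hb hab
    rw [Finset.mem_Ioc] at ha hb
    obtain ⟨c, rfl⟩ := hab
    rcases Nat.lt_or_ge c 2 with hc | hc
    · interval_cases c
      · omega
      · simp
    · exfalso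
      have : a * 2 ≤ a * c := Nat.mul_le_mul_left a hc
      omega
  refine le_trans ?_ (le_F σ n A hA hp)
  rw [le_div_iff₀ (Sw_pos σ n hn)]
  have h2 : (n : ℝ) / 2 * (n : ℝ) ^ (-σ) ≤ Sw σ A := by
    unfold Sw
    have h3 : ∑ a ∈ A, (n : ℝ) ^ (-σ) ≤ ∑ a ∈ A, (a : ℝ) ^ (-σ) := by
      apply Finset.sum_le_sum
      intro a ha
      rw [Finset.mem_Ioc] at ha
      have ha0 : (0 : ℝ) < a := by
        have : 0 < a := by omega
        exact_mod_cast this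
      exact Real.rpow_le_rpow_of_nonpos ha0 (by exact_mod_cast ha.2) (by linarith)
    refine le_trans ?_ h3
    rw [Finset.sum_const, nsmul_eq_mul, Nat.card_Ioc]
    have h4 : (n : ℝ) / 2 ≤ ((n - n / 2 : ℕ) : ℝ) := by
      have h5 : n ≤ 2 * (n - n / 2) := by omega
      have h6 : (n : ℝ) ≤ 2 * ((n - n / 2 : ℕ) : ℝ) := by exact_mod_cast h5
      linarith
    gcongr
  have h3 := Sw_upper σ h0 h1 n
  have h4 : (n : ℝ) ^ (1 - σ) = n * (n : ℝ) ^ (-σ) := by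
    rw [sub_eq_add_neg, Real.rpow_add hn0, Real.rpow_one]
  calc (1 - σ) / 2 * Sw σ (Finset.Icc 1 n) ≤ (1 - σ) / 2 * ((n : ℝ) ^ (1 - σ) / (1 - σ)) := by
        gcongr
    _ = (n : ℝ) ^ (1 - σ) / 2 := by field_simp
    _ = (n : ℝ) / 2 * (n : ℝ) ^ (-σ) := by rw [h4]; ring
    _ ≤ _ := h2

/-- elements which are not good are divisible by a large prime power. -/
theorem bad_dvd (y K a : ℕ) (hcop : ¬ Nat.Coprime (a / Nat.gcd a (y.factorial ^ K)) y.factorial)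
    (ha : 0 < a) : ∃ p, p.Prime ∧ p ≤ y ∧ p ^ (K + 1) ∣ a := by
  obtain ⟨p, hp, h1, h2⟩ := Nat.Prime.not_coprime_iff_dvd.1 hcop
  have hpy : p ≤ y := (Nat.Prime.dvd_factorial hp).1 h2
  refine ⟨p, hp, hpy, ?_⟩
  have hg : p * Nat.gcd a (y.factorial ^ K) ∣ a := by
    obtain ⟨c, hc⟩ := h1
    have h3 : a / Nat.gcd a (y.factorial ^ K) * Nat.gcd a (y.factorial ^ K) = a :=
      Nat.div_mul_cancel (Nat.gcd_dvd_left _ _)
    rw [hc] at h3
    refine ⟨c, ?_⟩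
    calc a = p * c * Nat.gcd a (y.factorial ^ K) := h3.symm
      _ = _ := by ring
  have key : ∀ e : ℕ, e ≤ K + 1 → p ^ e ∣ a := by
    intro e
    induction e with
    | zero => intro _; simp
    | succ e ih =>
      intro he
      have h3 := ih (by omega)
      have h4 : p ^ e ∣ y.factorial ^ K :=
        (pow_dvd_pow p (by omega)).trans (pow_dvd_pow_of_dvd h2 K)
      have h5 : p ^ e ∣ Nat.gcd a (y.factorial ^ K) := Nat.dvd_gcd h3 h4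
      rw [pow_succ, mul_comm]
      exact (Nat.mul_dvd_mul_left p h5).trans hg
  exact key (K + 1) (le_refl _)

/-- `F` is almost increasing. -/
theorem almost_mono (σ : ℝ) (h0 : 0 ≤ σ) (h1 : σ < 1) (η : ℝ) (hη : 0 < η) :
    ∃ N0 : ℕ, ∀ n0 : ℕ, N0 ≤ n0 → ∃ N' : ℕ, ∀ n : ℕ, N' ≤ n →
      F (pw σ) n0 - η ≤ F (pw σ) n := by
  classical
  wlog hη1 : η ≤ 1 generalizing η
  · obtain ⟨N0, hN0⟩ := this 1 one_pos (le_refl _)
    refine ⟨N0, fun n0 hn0 => ?_⟩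
    obtain ⟨N', hN'⟩ := hN0 n0 hn0
    exact ⟨N', fun n hn => by linarith [hN' n hn]⟩
  have hβ : 0 < 1 - σ := by linarith
  have hβ1 : 1 - σ ≤ 1 := by linarith
  -- choice of `y`
  obtain ⟨y, hy2, hy⟩ : ∃ y : ℕ, 2 ≤ y ∧ (2 / (y : ℝ)) ^ (1 - σ) ≤ η / 6 := by
    have hlim : Tendsto (fun y : ℕ => (2 / (y : ℝ)) ^ (1 - σ)) atTop (𝓝 0) := by
      have h2 : Tendsto (fun y : ℕ => (2 / (y : ℝ))) atTop (𝓝 0) :=
        tendsto_const_div_atTop_nhds_zero_nat 2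
      have h3 := h2.rpow_const (p := 1 - σ) (Or.inr hβ.le)
      rwa [Real.zero_rpow hβ.ne'] at h3
    obtain ⟨y, hy1, hy2⟩ := ((hlim.eventually (gt_mem_nhds (by positivity : 0 < η / 6))).and
      (eventually_ge_atTop 2)).exists
    exact ⟨y, hy2, hy1.le⟩
  obtain ⟨K, hK⟩ : ∃ K : ℕ, ((y : ℝ) + 1) * (1 / 2) ^ (K + 1) ≤ η / 6 := by
    have h2 : Tendsto (fun K : ℕ => ((y : ℝ) + 1) * (1 / 2) ^ (K + 1)) atTop (𝓝 0) := by
      have h3 : Tendsto (fun K : ℕ => (1 / 2 : ℝ) ^ (K + 1)) atTop (𝓝 0) :=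
        (tendsto_pow_atTop_nhds_zero_of_lt_one (by norm_num) (by norm_num)).comp
          (tendsto_add_atTop_nat 1)
      have h4 := h3.const_mul ((y : ℝ) + 1)
      rwa [mul_zero] at h4
    obtain ⟨K, hK⟩ := (h2.eventually (gt_mem_nhds (by positivity : 0 < η / 6))).exists
    exact ⟨K, hK.le⟩
  obtain ⟨P, hP⟩ : ∃ P, P = y.factorial := ⟨_, rfl⟩
  obtain ⟨M, hM⟩ : ∃ M, M = P ^ K := ⟨_, rfl⟩
  have hP0 : 0 < P := by rw [hP]; exact Nat.factorial_pos y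
  have hM0 : 0 < M := by rw [hM]; positivity
  -- choice of `N0`
  have e1 : ∀ᶠ n : ℕ in atTop, (n : ℝ) ^ (-(1 - σ)) ≤ η / 6 := by
    have h2 := (tendsto_rpow_neg_atTop hβ).comp (tendsto_natCast_atTop_atTop (R := ℝ))
    exact (h2.eventually (gt_mem_nhds (by positivity : 0 < η / 6))).mono fun n hn => hn.le
  have e2 : ∀ᶠ n : ℕ in atTop, ((P : ℝ) * M) / n ≤ η / 6 := by
    have h2 := tendsto_const_div_atTop_nhds_zero_nat ((P : ℝ) * M)
    exact (h2.eventually (gt_mem_nhds (by positivity : 0 < η / 6))).mono fun n hn => hn.le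
  have e3 : ∀ᶠ n : ℕ in atTop, (P * M * y : ℝ) / (2 * n) ≤ η / 6 := by
    have h2 := tendsto_const_div_atTop_nhds_zero_nat ((P : ℝ) * M * y / 2)
    refine (h2.eventually (gt_mem_nhds (by positivity : 0 < η / 6))).mono fun n hn => ?_
    rw [div_div] at hn
    exact hn.le
  obtain ⟨N0, hN0⟩ := eventually_atTop.1
    ((e1.and (e2.and e3)).and (eventually_gt_atTop ((y + 1) * (P * M))))
  refine ⟨N0, fun n0 hn0 => ?_⟩
  obtain ⟨⟨f1, f2, f3⟩, f4⟩ := hN0 n0 hn0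
  have hn00 : 0 < n0 := by omega
  have hn0r : (0 : ℝ) < n0 := by exact_mod_cast hn00
  -- choice of `N'`
  have e4 : ∀ᶠ n : ℕ in atTop, (n0 : ℝ) / n ≤ η / 6 := by
    have h2 := tendsto_const_div_atTop_nhds_zero_nat (n0 : ℝ)
    exact (h2.eventually (gt_mem_nhds (by positivity : 0 < η / 6))).mono fun n hn => hn.le
  obtain ⟨N', hN'⟩ := eventually_atTop.1 (e4.and (eventually_ge_atTop (n0 + P * M)))
  refine ⟨N', fun n hn => ?_⟩
  obtain ⟨g1, g2⟩ := hN' n hn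
  have hnpos : 0 < n := by omega
  have hnr : (0 : ℝ) < n := by exact_mod_cast hnpos
  -- the optimal set
  obtain ⟨A, hA, hprim, hF⟩ := exists_F σ n0
  let A' := A.filter (fun a => 2 * n0 < y * a ∧ Nat.Coprime (a / Nat.gcd a M) P)
  have hA'A : A' ⊆ A := Finset.filter_subset _ _
  obtain ⟨l, hl⟩ : ∃ l, l = n / (n0 + P * M) := ⟨_, rfl⟩
  have hl1 : 1 ≤ l := by
    rw [hl, Nat.one_le_div_iff (by omega)]
    exact g2
  have hln : l * (n0 + P * M) ≤ n := by rw [hl]; exact Nat.div_mul_le_self n _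
  obtain ⟨B, hB, hBprim, hBw⟩ := transfer σ h0 h1 y K n0 n l hy2 P M hP hM f4 hl1 hln A'
    (hA'A.trans hA) (fun a ha b hb => hprim a (hA'A ha) b (hA'A hb))
    (fun a ha => (Finset.mem_filter.1 ha).2.1) (fun a ha => (Finset.mem_filter.1 ha).2.2)
  have hFn := le_F σ n B hB hBprim
  -- the loss
  obtain ⟨Z, hZ⟩ : ∃ Z, Z = (n0 : ℝ) ^ (1 - σ) / (1 - σ) := ⟨_, rfl⟩
  have hZ0 : 0 < Z := by
    rw [hZ]
    exact div_pos (Real.rpow_pos_of_pos hn0r _) hβ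
  have hloss : Sw σ A ≤ Sw σ A' + (η / 6) * Z + (η / 6) * Z := by
    let E1 := Finset.Icc 1 (2 * n0 / y)
    let E2 := (Finset.range (y + 1)).filter Nat.Prime
    have hsub : A ⊆ (A' ∪ E1) ∪ E2.biUnion
        (fun p => (Finset.Icc 1 n0).filter (fun m => p ^ (K + 1) ∣ m)) := by
      intro a ha
      have ha1 := Finset.mem_Icc.1 (hA ha)
      rw [Finset.mem_union, Finset.mem_union]
      by_cases c1 : 2 * n0 < y * a
      · by_cases c2 : Nat.Coprime (a / Nat.gcd a M) P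
        · exact Or.inl (Or.inl (Finset.mem_filter.2 ⟨ha, c1, c2⟩))
        · right
          rw [hM, hP] at c2
          obtain ⟨p, hp, hpy, hpa⟩ := bad_dvd y K a c2 (by omega)
          rw [Finset.mem_biUnion]
          refine ⟨p, Finset.mem_filter.2 ⟨Finset.mem_range.2 (by omega), hp⟩, ?_⟩
          exact Finset.mem_filter.2 ⟨hA ha, hpa⟩
      · left; right
        rw [Finset.mem_Icc]
        refine ⟨ha1.1, ?_⟩
        rw [Nat.le_div_iff_mul_le (by omega), mul_comm]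
        omega
    have h2 : Sw σ A ≤ Sw σ A' + Sw σ E1 + ∑ p ∈ E2,
        Sw σ ((Finset.Icc 1 n0).filter (fun m => p ^ (K + 1) ∣ m)) := by
      refine (Sw_mono σ hsub).trans ?_
      have hun : ∀ X Y : Finset ℕ, Sw σ (X ∪ Y) ≤ Sw σ X + Sw σ Y := by
        intro X Y
        have h3 : Sw σ (X ∪ Y) + Sw σ (X ∩ Y) = Sw σ X + Sw σ Y := Finset.sum_union_inter
        linarith [Sw_nonneg σ (X ∩ Y)]
      have hbi : ∀ (E : Finset ℕ) (f : ℕ → Finset ℕ), Sw σ (E.biUnion f) ≤ ∑ p ∈ E, Sw σ (f p) := by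
        intro E f
        induction E using Finset.induction_on with
        | empty => simp [Sw]
        | insert a s ha ih =>
          rw [Finset.biUnion_insert, Finset.sum_insert ha]
          exact (hun _ _).trans (by linarith)
      exact (hun _ _).trans (add_le_add (hun _ _) (hbi _ _))
    have h3 : Sw σ E1 ≤ (η / 6) * Z := by
      refine (Sw_upper σ h0 h1 _).trans ?_
      have h4 : ((2 * n0 / y : ℕ) : ℝ) ^ (1 - σ) ≤ (2 / (y : ℝ)) ^ (1 - σ) * (n0 : ℝ) ^ (1 - σ) := by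
        rw [← Real.mul_rpow (by positivity) hn0r.le]
        apply Real.rpow_le_rpow (by positivity) _ hβ.le
        refine Nat.cast_div_le.trans (le_of_eq ?_)
        push_cast
        ring
      rw [hZ, ← mul_div_assoc]
      gcongr
      exact h4.trans (by gcongr)
    have h4 : ∑ p ∈ E2, Sw σ ((Finset.Icc 1 n0).filter (fun m => p ^ (K + 1) ∣ m)) ≤
        (η / 6) * Z := by
      have h5 : ∀ p ∈ E2, Sw σ ((Finset.Icc 1 n0).filter (fun m => p ^ (K + 1) ∣ m)) ≤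
          (1 / 2) ^ (K + 1) * Z := by
        intro p hp
        have hp2 := (Finset.mem_filter.1 hp).2.two_le
        refine (Sw_dvd σ h0 h1 n0 (p ^ (K + 1)) (by positivity)).trans ?_
        rw [← hZ]
        push_cast
        rw [← one_div_pow]
        have hp2r : (2 : ℝ) ≤ p := by exact_mod_cast hp2
        gcongr
      refine (Finset.sum_le_sum h5).trans ?_
      rw [Finset.sum_const, nsmul_eq_mul]
      have h6 : (E2.card : ℝ) ≤ y + 1 := by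
        have : E2.card ≤ y + 1 := by
          refine (Finset.card_filter_le _ _).trans ?_
          simp
        exact_mod_cast this
      calc (E2.card : ℝ) * ((1 / 2) ^ (K + 1) * Z) ≤ (y + 1) * ((1 / 2) ^ (K + 1) * Z) := by gcongr
        _ = ((y + 1) * (1 / 2) ^ (K + 1)) * Z := by ring
        _ ≤ (η / 6) * Z := by gcongr
    linarith
  -- `X = Sw A' / Z`
  obtain ⟨X, hX⟩ : ∃ X, X = Sw σ A' / Z := ⟨_, rfl⟩
  have hX0 : 0 ≤ X := by rw [hX]; exact div_nonneg (Sw_nonneg _ _) hZ0.le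
  have hX1 : X ≤ 1 := by
    rw [hX, div_le_one hZ0, hZ]
    exact (Sw_mono σ (hA'A.trans hA)).trans (Sw_upper σ h0 h1 n0)
  have hXl : F (pw σ) n0 - η / 6 - η / 6 - η / 6 ≤ X := by
    have h2 : F (pw σ) n0 * Sw σ (Finset.Icc 1 n0) = Sw σ A := by
      rw [hF, div_mul_cancel₀ _ (Sw_pos σ n0 hn00).ne']
    have h3 := Sw_lower σ h0 h1 n0
    have hF0 := F_nonneg σ n0
    have hF1 := F_le_one σ n0
    have h4 : F (pw σ) n0 * ((((n0 : ℝ) ^ (1 - σ) - 1) / (1 - σ))) ≤ Sw σ A := by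
      rw [← h2]; gcongr
    have h5 : (((n0 : ℝ) ^ (1 - σ) - 1) / (1 - σ)) = Z * (1 - (n0 : ℝ) ^ (-(1 - σ))) := by
      rw [hZ, Real.rpow_neg hn0r.le]
      have : (n0 : ℝ) ^ (1 - σ) ≠ 0 := (Real.rpow_pos_of_pos hn0r _).ne'
      field_simp
    rw [h5] at h4
    rw [hX, le_div_iff₀ hZ0]
    have h6 : F (pw σ) n0 * (n0 : ℝ) ^ (-(1 - σ)) ≤ η / 6 := by
      have h7 : 0 ≤ (n0 : ℝ) ^ (-(1 - σ)) := by positivity
      nlinarith
    nlinarith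
  -- the ratio
  obtain ⟨κ, hκ⟩ : ∃ κ : ℝ, κ = l * n0 / n := ⟨_, rfl⟩
  have hl0 : (0 : ℝ) < l := by exact_mod_cast hl1
  have hκ0 : 0 < κ := by rw [hκ]; positivity
  have hκ1 : κ ≤ 1 := by
    rw [hκ, div_le_one hnr]
    have : l * n0 ≤ n := (Nat.mul_le_mul_left l (by omega)).trans hln
    exact_mod_cast this
  have hκl : 1 - η / 6 - η / 6 ≤ κ := by
    have hPM : (0 : ℝ) ≤ (P : ℝ) * M := by positivity
    have h2 : (n : ℝ) / (n0 + P * M) - 1 ≤ l := by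
      have h3 : n < (l + 1) * (n0 + P * M) := by
        rw [hl]
        have := Nat.lt_div_mul_add (a := n) (b := n0 + P * M) (by omega)
        nlinarith
      have h4 : (n : ℝ) < (l + 1) * (n0 + P * M) := by exact_mod_cast h3
      have h5 : (n : ℝ) / (n0 + P * M) ≤ l + 1 := by
        rw [div_le_iff₀ (by positivity)]; exact h4.le
      linarith
    have h3 : ((n : ℝ) / (n0 + P * M) - 1) * n0 / n ≤ κ := by rw [hκ]; gcongr
    have h4 : ((n : ℝ) / (n0 + P * M) - 1) * n0 / n = (n0 : ℝ) / (n0 + P * M) - n0 / n := by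
      field_simp
    have h5 : 1 - (P * M : ℝ) / n0 ≤ (n0 : ℝ) / (n0 + P * M) := by
      rw [le_div_iff₀ (by positivity)]
      have : (1 - (P * M : ℝ) / n0) * (n0 + P * M) = n0 - (P * M) ^ 2 / n0 := by
        field_simp
        ring
      rw [this]
      have : 0 ≤ ((P : ℝ) * M) ^ 2 / n0 := by positivity
      linarith
    linarith
  have hκβ : κ ≤ κ ^ (1 - σ) := by
    have := Real.rpow_le_rpow_of_exponent_ge hκ0 hκ1 hβ1
    rwa [Real.rpow_one] at this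
  -- combine
  have hθ : (P * M * y : ℝ) / (2 * n0) ≤ η / 6 := f3
  have hθ0 : 0 ≤ (P * M * y : ℝ) / (2 * n0) := by positivity
  obtain ⟨θ, hθd⟩ : ∃ θ, θ = (P * M * y : ℝ) / (2 * n0) := ⟨_, rfl⟩
  rw [← hθd] at hθ hθ0 hBw
  have hfin : κ ^ (1 - σ) * (1 - θ) * X ≤ F (pw σ) n := by
    refine le_trans ?_ hFn
    rw [le_div_iff₀ (Sw_pos σ n hnpos)]
    refine le_trans ?_ hBw
    have h2 := Sw_upper σ h0 h1 n
    have h3 : κ ^ (1 - σ) = (l : ℝ) ^ (1 - σ) * (n0 : ℝ) ^ (1 - σ) / (n : ℝ) ^ (1 - σ) := by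
      rw [hκ, Real.div_rpow (by positivity) hnr.le, Real.mul_rpow hl0.le hn0r.le]
    have hθ1 : 0 ≤ 1 - θ := by linarith
    have hnβ : 0 < (n : ℝ) ^ (1 - σ) := Real.rpow_pos_of_pos hnr _
    have hn0β : 0 < (n0 : ℝ) ^ (1 - σ) := Real.rpow_pos_of_pos hn0r _
    have hlβ : 0 < (l : ℝ) ^ (1 - σ) := Real.rpow_pos_of_pos hl0 _
    calc κ ^ (1 - σ) * (1 - θ) * X * Sw σ (Finset.Icc 1 n)
        ≤ κ ^ (1 - σ) * (1 - θ) * X * ((n : ℝ) ^ (1 - σ) / (1 - σ)) := by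
          gcongr
      _ = (l : ℝ) ^ (1 - σ) * (1 - θ) * Sw σ A' := by
          rw [h3, hX, hZ]
          field_simp
  have h2 : κ * (1 - θ) * X ≤ κ ^ (1 - σ) * (1 - θ) * X := by
    have hθ1 : 0 ≤ 1 - θ := by linarith
    gcongr
  have h3 : X - η / 6 - η / 6 - η / 6 ≤ κ * (1 - θ) * X := by
    have h4 : 1 - η / 6 - η / 6 - η / 6 ≤ κ * (1 - θ) := by
      have : κ * θ ≤ η / 6 := by nlinarith
      nlinarith
    nlinarith
  linarith

theorem conv (f : ℕ → ℝ) (hb : ∀ n, 0 ≤ f n ∧ f n ≤ 1)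
    (h : ∀ η : ℝ, 0 < η → ∃ N0 : ℕ, ∀ n0 : ℕ, N0 ≤ n0 → ∃ N' : ℕ, ∀ n : ℕ, N' ≤ n →
      f n0 - η ≤ f n) : ∃ L : ℝ, Tendsto f atTop (𝓝 L) := by
  have hbd : IsBoundedUnder (· ≤ ·) atTop f := isBoundedUnder_of ⟨1, fun n => (hb n).2⟩
  have hbd' : IsBoundedUnder (· ≥ ·) atTop f := isBoundedUnder_of ⟨0, fun n => (hb n).1⟩
  refine ⟨limsup f atTop, tendsto_order.2 ⟨fun a ha => ?_, fun b hb' => ?_⟩⟩
  · obtain ⟨η, hη⟩ : ∃ η, η = (limsup f atTop - a) / 2 := ⟨_, rfl⟩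
    have hη0 : 0 < η := by rw [hη]; linarith
    obtain ⟨N0, hN0⟩ := h η hη0
    have h2 : ∃ᶠ n in atTop, limsup f atTop - η < f n :=
      frequently_lt_of_lt_limsup hbd'.isCoboundedUnder_le (by linarith)
    obtain ⟨n0, hn0, hn0'⟩ := (h2.and_eventually (eventually_ge_atTop N0)).exists
    obtain ⟨N', hN'⟩ := hN0 n0 hn0'
    filter_upwards [eventually_ge_atTop N'] with n hn
    have := hN' n hn
    linarith
  · exact eventually_lt_of_limsup_lt hb' hbd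

theorem exists_limit (σ : ℝ) (h0 : 0 ≤ σ) (h1 : σ < 1) :
    ∃ L : ℝ, Tendsto (F (pw σ)) atTop (𝓝 L) :=
  conv _ (fun n => ⟨F_nonneg σ n, F_le_one σ n⟩) (almost_mono σ h0 h1)


/-- Abel summation. -/
theorem abel (x e : ℕ → ℝ) (m n : ℕ) (hmn : m ≤ n) :
    ∑ a ∈ Finset.Ioc m n, x a * e a = e n * (∑ a ∈ Finset.Icc 1 n, x a) -
      e m * (∑ a ∈ Finset.Icc 1 m, x a) +
      ∑ t ∈ Finset.Ico m n, (e t - e (t + 1)) * (∑ a ∈ Finset.Icc 1 t, x a) := by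
  induction n, hmn using Nat.le_induction with
  | base => simp
  | succ n hmn ih =>
    rw [Finset.sum_Ioc_succ_top (by omega), ih, Finset.sum_Ico_succ_top (by omega),
      Finset.sum_Icc_succ_top (by omega)]
    ring

/-- the indicator weight. -/
noncomputable def xw (σ : ℝ) (A : Finset ℕ) (a : ℕ) : ℝ :=
  if a ∈ A then (a : ℝ) ^ (-σ) else 0

theorem sum_xw (σ : ℝ) (A : Finset ℕ) (T : Finset ℕ) (f : ℕ → ℝ) :
    ∑ a ∈ T, xw σ A a * f a = ∑ a ∈ T ∩ A, (a : ℝ) ^ (-σ) * f a := by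
  classical
  unfold xw
  rw [← Finset.sum_filter_add_sum_filter_not T (fun a => a ∈ A)]
  have h1 : ∑ a ∈ T.filter (fun a => a ∉ A), (if a ∈ A then (a : ℝ) ^ (-σ) else 0) * f a = 0 := by
    apply Finset.sum_eq_zero
    intro a ha
    rw [if_neg (Finset.mem_filter.1 ha).2, zero_mul]
  rw [h1, add_zero, Finset.filter_mem_eq_inter]
  apply Finset.sum_congr rfl
  intro a ha
  rw [if_pos (Finset.mem_inter.1 ha).2]

/-- partial sums. -/
noncomputable def gs (σ : ℝ) (A : Finset ℕ) (t : ℕ) : ℝ := ∑ a ∈ Finset.Icc 1 t, xw σ A a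

theorem gs_eq (σ : ℝ) (A : Finset ℕ) (t : ℕ) : gs σ A t = Sw σ (Finset.Icc 1 t ∩ A) := by
  have := sum_xw σ A (Finset.Icc 1 t) (fun _ => 1)
  simpa [gs, Sw] using this

theorem gs_nonneg (σ : ℝ) (A : Finset ℕ) (t : ℕ) : 0 ≤ gs σ A t := by
  rw [gs_eq]; exact Sw_nonneg _ _

theorem gs_le (σ : ℝ) (A : Finset ℕ) (t : ℕ) : gs σ A t ≤ Sw σ (Finset.Icc 1 t) := by
  rw [gs_eq]; exact Sw_mono σ Finset.inter_subset_left

theorem gs_full (σ : ℝ) (n t : ℕ) (htn : t ≤ n) :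
    gs σ (Finset.Icc 1 n) t = Sw σ (Finset.Icc 1 t) := by
  rw [gs_eq]
  congr 1
  apply Finset.inter_eq_left.2
  exact Finset.Icc_subset_Icc_right htn

/-- Abel summation for the weights `a ^ (-(σ + τ))` of elements of `A` in `(m, n]`. -/
theorem abel_w (σ τ : ℝ) (A : Finset ℕ) (m n : ℕ) (hmn : m ≤ n) :
    ∑ a ∈ Finset.Ioc m n ∩ A, (a : ℝ) ^ (-(σ + τ)) =
      (n : ℝ) ^ (-τ) * gs σ A n - (m : ℝ) ^ (-τ) * gs σ A m +
      ∑ t ∈ Finset.Ico m n, ((t : ℝ) ^ (-τ) - ((t + 1 : ℕ) : ℝ) ^ (-τ)) * gs σ A t := by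
  have h1 := abel (xw σ A) (fun t => (t : ℝ) ^ (-τ)) m n hmn
  rw [sum_xw] at h1
  have h2 : ∑ a ∈ Finset.Ioc m n ∩ A, (a : ℝ) ^ (-σ) * (a : ℝ) ^ (-τ) =
      ∑ a ∈ Finset.Ioc m n ∩ A, (a : ℝ) ^ (-(σ + τ)) := by
    apply Finset.sum_congr rfl
    intro a ha
    have ha0 : 0 < a := by
      have := (Finset.mem_Ioc.1 (Finset.mem_inter.1 ha).1).1
      omega
    have ha0' : (0 : ℝ) < a := by exact_mod_cast ha0
    rw [← Real.rpow_add ha0']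
    congr 1
    ring
  rw [← h2, h1]
  rfl

/-- comparison of consecutive differences. -/
theorem diff_lower (τ : ℝ) (h0 : 0 ≤ τ) (h1 : τ ≤ 1) (t : ℕ) (ht : 0 < t) :
    τ / (t + 1) * (t : ℝ) ^ (-τ) ≤ (t : ℝ) ^ (-τ) - ((t + 1 : ℕ) : ℝ) ^ (-τ) := by
  have ht0 : (0 : ℝ) < t := by exact_mod_cast ht
  have h2 : (-1 : ℝ) ≤ -1 / (t + 1) := by
    rw [le_div_iff₀ (by linarith)]; linarith
  have h3 := rpow_one_add_le_one_add_mul_self h2 h0 h1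
  have h4 : (1 + -1 / ((t : ℝ) + 1)) = t / (t + 1) := by field_simp; ring
  rw [h4, Real.div_rpow ht0.le (by linarith)] at h3
  have h5 : ((t + 1 : ℕ) : ℝ) ^ (-τ) = (t : ℝ) ^ (-τ) * ((t : ℝ) ^ τ / ((t : ℝ) + 1) ^ τ) := by
    push_cast
    rw [Real.rpow_neg (by linarith), Real.rpow_neg ht0.le]
    have : (t : ℝ) ^ τ ≠ 0 := (Real.rpow_pos_of_pos ht0 _).ne'
    field_simp
  rw [h5]
  have h6 : 0 < (t : ℝ) ^ (-τ) := Real.rpow_pos_of_pos ht0 _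
  have h7 : (t : ℝ) ^ (-τ) * ((t : ℝ) ^ τ / ((t : ℝ) + 1) ^ τ) ≤
      (t : ℝ) ^ (-τ) * (1 + τ * (-1 / (t + 1))) := by gcongr
  have h8 : (t : ℝ) ^ (-τ) * (1 + τ * (-1 / (t + 1))) =
      (t : ℝ) ^ (-τ) - τ / (t + 1) * (t : ℝ) ^ (-τ) := by ring
  linarith

theorem diff_upper (τ : ℝ) (h0 : 0 ≤ τ) (h1 : τ ≤ 1) (t : ℕ) (ht : 0 < t) :
    (t : ℝ) ^ (-τ) - ((t + 1 : ℕ) : ℝ) ^ (-τ) ≤ 1 / (t + 1) * (t : ℝ) ^ (-τ) := by
  have ht0 : (0 : ℝ) < t := by exact_mod_cast ht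
  have h5 : ((t + 1 : ℕ) : ℝ) ^ (-τ) = (t : ℝ) ^ (-τ) * ((t : ℝ) / ((t : ℝ) + 1)) ^ τ := by
    push_cast
    rw [Real.div_rpow ht0.le (by linarith), Real.rpow_neg (by linarith), Real.rpow_neg ht0.le]
    have : (t : ℝ) ^ τ ≠ 0 := (Real.rpow_pos_of_pos ht0 _).ne'
    field_simp
  have h6 : (t : ℝ) / ((t : ℝ) + 1) ≤ ((t : ℝ) / ((t : ℝ) + 1)) ^ τ := by
    have h7 : (0 : ℝ) < t / (t + 1) := by positivity
    have h8 : (t : ℝ) / (t + 1) ≤ 1 := by rw [div_le_one (by linarith)]; linarith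
    have := Real.rpow_le_rpow_of_exponent_ge h7 h8 h1
    rwa [Real.rpow_one] at this
  have h7 : 0 < (t : ℝ) ^ (-τ) := Real.rpow_pos_of_pos ht0 _
  rw [h5]
  have h8 : (t : ℝ) ^ (-τ) * ((t : ℝ) / ((t : ℝ) + 1)) ≤
      (t : ℝ) ^ (-τ) * ((t : ℝ) / ((t : ℝ) + 1)) ^ τ := by gcongr
  have h9 : (t : ℝ) ^ (-τ) * ((t : ℝ) / ((t : ℝ) + 1)) =
      (t : ℝ) ^ (-τ) - 1 / (t + 1) * (t : ℝ) ^ (-τ) := by field_simp; ring
  linarith

/-- `c' ≤ (1/τ) t^(-(τ'-τ)) c`. -/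
theorem diff_compare (τ τ' : ℝ) (h0 : 0 < τ) (h01 : τ ≤ τ') (h1 : τ' ≤ 1) (m t : ℕ) (hm : 0 < m)
    (hmt : m ≤ t) :
    (t : ℝ) ^ (-τ') - ((t + 1 : ℕ) : ℝ) ^ (-τ') ≤
      (1 / τ * (m : ℝ) ^ (-(τ' - τ))) * ((t : ℝ) ^ (-τ) - ((t + 1 : ℕ) : ℝ) ^ (-τ)) := by
  have ht : 0 < t := by omega
  have ht0 : (0 : ℝ) < t := by exact_mod_cast ht
  have hm0 : (0 : ℝ) < m := by exact_mod_cast hm
  have h2 := diff_upper τ' (by linarith) h1 t ht
  have h3 := diff_lower τ h0.le (by linarith) t ht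
  have h4 : (t : ℝ) ^ (-τ') = (t : ℝ) ^ (-(τ' - τ)) * (t : ℝ) ^ (-τ) := by
    rw [← Real.rpow_add ht0]; congr 1; ring
  have h5 : (t : ℝ) ^ (-(τ' - τ)) ≤ (m : ℝ) ^ (-(τ' - τ)) :=
    Real.rpow_le_rpow_of_nonpos hm0 (by exact_mod_cast hmt) (by linarith)
  have h6 : 0 < (t : ℝ) ^ (-τ) := Real.rpow_pos_of_pos ht0 _
  have h7 : 0 < (m : ℝ) ^ (-(τ' - τ)) := Real.rpow_pos_of_pos hm0 _
  calc (t : ℝ) ^ (-τ') - ((t + 1 : ℕ) : ℝ) ^ (-τ') ≤ 1 / (t + 1) * (t : ℝ) ^ (-τ') := h2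
    _ = 1 / (t + 1) * ((t : ℝ) ^ (-(τ' - τ)) * (t : ℝ) ^ (-τ)) := by rw [h4]
    _ ≤ 1 / (t + 1) * ((m : ℝ) ^ (-(τ' - τ)) * (t : ℝ) ^ (-τ)) := by gcongr
    _ = (1 / τ * (m : ℝ) ^ (-(τ' - τ))) * (τ / (t + 1) * (t : ℝ) ^ (-τ)) := by
        field_simp
    _ ≤ _ := by gcongr

/-- growth of the harmonic sums. -/
theorem H_half (x : ℕ) (hx : 1 ≤ x) : 1 / 2 ≤ H (x / 2) x := by
  unfold H
  have hx0 : (0 : ℝ) < x := by exact_mod_cast hx
  have h1 : ∀ v ∈ Finset.Ioc (x / 2) x, 1 / (x : ℝ) ≤ 1 / (v : ℝ) := by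
    intro v hv
    rw [Finset.mem_Ioc] at hv
    have hv0 : (0 : ℝ) < v := by
      have : 0 < v := by omega
      exact_mod_cast this
    have : (v : ℝ) ≤ x := by exact_mod_cast hv.2
    exact one_div_le_one_div_of_le hv0 this
  refine le_trans ?_ (Finset.sum_le_sum h1)
  rw [Finset.sum_const, nsmul_eq_mul, Nat.card_Ioc]
  have h5 : x ≤ 2 * (x - x / 2) := by omega
  have h6 : (x : ℝ) ≤ 2 * ((x - x / 2 : ℕ) : ℝ) := by exact_mod_cast h5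
  rw [mul_one_div, div_le_div_iff₀ (by norm_num) hx0]
  linarith

theorem H_pow (j n : ℕ) (h : 2 ^ j ≤ n) : (j : ℝ) / 2 ≤ H (n / 2 ^ j) n := by
  induction j with
  | zero => simp [H]
  | succ j ih =>
    have h1 : 2 ^ j ≤ n := le_trans (Nat.pow_le_pow_right (by norm_num) (by omega)) h
    have h2 := ih h1
    have h3 : n / 2 ^ (j + 1) = n / 2 ^ j / 2 := by rw [pow_succ, Nat.div_div_eq_div_mul]
    have h4 : 1 ≤ n / 2 ^ j := by
      rw [Nat.one_le_div_iff (by positivity)]; exact h1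
    have h5 := H_half (n / 2 ^ j) h4
    have h6 := H_add (Nat.div_le_self (n / 2 ^ j) 2) (Nat.div_le_self n (2 ^ j))
    rw [h3, ← h6]
    push_cast
    linarith


theorem main_lt (σ₁ σ₂ : ℝ) (h0 : 0 ≤ σ₁) (h12 : σ₁ < σ₂) (h2 : σ₂ < 1) :
    ∀ᶠ n : ℕ in atTop, F (pw σ₂) n < F (pw σ₁) n := by
  classical
  have hσ1 : σ₁ < 1 := h12.trans h2
  obtain ⟨L, hL⟩ := exists_limit σ₁ h0 hσ1
  have hL1 : (1 - σ₁) / 2 ≤ L := by
    apply ge_of_tendsto hL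
    filter_upwards [eventually_ge_atTop 1] with n hn
    exact F_lower σ₁ h0 hσ1 n hn
  have hLle : L ≤ 1 := le_of_tendsto hL (Eventually.of_forall fun n => F_le_one σ₁ n)
  have hβ₁ : 0 < 1 - σ₁ := by linarith
  have hβ₂ : 0 < 1 - σ₂ := by linarith
  have hL0 : 0 < L := by linarith
  obtain ⟨C, hC0, hC⟩ := behrend (L / 2) (by positivity)
  obtain ⟨j, hj⟩ := exists_nat_gt ((C + 2 / (1 - σ₁) + 2) / (L / 4))
  rw [div_lt_iff₀ (by positivity)] at hj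
  obtain ⟨Q, hQ⟩ : ∃ Q : ℕ, Q = 2 ^ j := ⟨_, rfl⟩
  have hQ1 : 1 ≤ Q := by rw [hQ]; exact Nat.one_le_two_pow
  have hQ0 : (0 : ℝ) < Q := by exact_mod_cast hQ1
  obtain ⟨τ, hτ⟩ : ∃ τ, τ = σ₂ - σ₁ := ⟨_, rfl⟩
  obtain ⟨τ', hτ'⟩ : ∃ τ', τ' = 1 - σ₁ := ⟨_, rfl⟩
  have hτ0 : 0 < τ := by rw [hτ]; linarith
  have hττ : τ ≤ τ' := by rw [hτ, hτ']; linarith
  have hτ'1 : τ' ≤ 1 := by rw [hτ']; linarith
  have hdiff : τ' - τ = 1 - σ₂ := by rw [hτ, hτ']; ring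
  obtain ⟨η, hη⟩ : ∃ η, η = min 1 (τ * (1 - σ₂) / (4 * Q)) := ⟨_, rfl⟩
  have hη0 : 0 < η := by rw [hη]; positivity
  have hη1 : η ≤ 1 := by rw [hη]; exact min_le_left _ _
  have hηQ : 4 * η * Q / (τ * (1 - σ₂)) ≤ 1 := by
    have h3 : η ≤ τ * (1 - σ₂) / (4 * Q) := by rw [hη]; exact min_le_right _ _
    rw [le_div_iff₀ (by positivity)] at h3
    rw [div_le_one (by positivity)]
    linarith
  -- threshold for `F (pw σ₁)`
  obtain ⟨T, hT⟩ := eventually_atTop.1 ((hL.eventually (lt_mem_nhds (by linarith : L - η < L))).and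
    ((hL.eventually (gt_mem_nhds (by linarith : L < L + η))).and (eventually_ge_atTop 1)))
  have hT1 : 1 ≤ T := (hT T (le_refl _)).2.2
  obtain ⟨s0, hs0⟩ : ∃ s0, s0 = Sw σ₁ (Finset.Icc 1 T) := ⟨_, rfl⟩
  have hs00 : 0 ≤ s0 := by rw [hs0]; exact Sw_nonneg _ _
  -- threshold for `m`
  obtain ⟨M1, hM1⟩ : ∃ M1 : ℕ, ∀ m : ℕ, M1 ≤ m → 1 / τ * (m : ℝ) ^ (-(τ' - τ)) * s0 ≤ 1 := by
    have h3 : Tendsto (fun m : ℕ => 1 / τ * (m : ℝ) ^ (-(τ' - τ)) * s0) atTop (𝓝 0) := by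
      have h4 := (tendsto_rpow_neg_atTop (y := τ' - τ) (by rw [hdiff]; exact hβ₂)).comp
        (tendsto_natCast_atTop_atTop (R := ℝ))
      have h5 := (h4.const_mul (1 / τ)).mul_const s0
      simpa using h5
    obtain ⟨M1, hM1⟩ := eventually_atTop.1 (h3.eventually (gt_mem_nhds one_pos))
    exact ⟨M1, fun m hm => (hM1 m hm).le⟩
  by_contra hcon
  rw [not_eventually] at hcon
  obtain ⟨n, hn, hnbig⟩ := (hcon.and_eventually (eventually_ge_atTop (Q * (T + M1 + 1)))).exists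
  push Not at hn
  obtain ⟨m, hm⟩ : ∃ m, m = n / Q := ⟨_, rfl⟩
  have hmge : T + M1 + 1 ≤ m := by
    rw [hm, Nat.le_div_iff_mul_le hQ1, mul_comm]; exact hnbig
  have hmn : m ≤ n := by rw [hm]; exact Nat.div_le_self n Q
  have hm1 : 1 ≤ m := by omega
  have hmT : T ≤ m := by omega
  have hnT : T ≤ n := by omega
  have hn1 : 1 ≤ n := by omega
  have hm0 : (0 : ℝ) < m := by exact_mod_cast hm1
  have hn0 : (0 : ℝ) < n := by exact_mod_cast hn1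
  have hnm : (n : ℝ) ≤ 2 * Q * m := by
    have h3 : n < (m + 1) * Q := by
      rw [hm]
      have := Nat.lt_div_mul_add (a := n) (b := Q) hQ1
      nlinarith
    have h4 : (m + 1) * Q ≤ 2 * m * Q := Nat.mul_le_mul_right Q (by omega)
    have h5 : n ≤ 2 * Q * m := by nlinarith
    exact_mod_cast h5
  obtain ⟨A, hA, hprim, hF⟩ := exists_F σ₂ n
  -- deficits
  let s : ℕ → ℝ := fun t => Sw σ₁ (Finset.Icc 1 t)
  let g : ℕ → ℝ := fun t => gs σ₁ A t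
  let d : ℕ → ℝ := fun t => (L + η) * s t - g t
  let c : ℕ → ℝ := fun t => (t : ℝ) ^ (-τ) - ((t + 1 : ℕ) : ℝ) ^ (-τ)
  let c' : ℕ → ℝ := fun t => (t : ℝ) ^ (-τ') - ((t + 1 : ℕ) : ℝ) ^ (-τ')
  have hd0 : ∀ t, T ≤ t → 0 ≤ d t := by
    intro t ht
    have ht1 : 1 ≤ t := by omega
    have h3 := le_F σ₁ t (Finset.Icc 1 t ∩ A) Finset.inter_subset_left
      (fun a ha b hb => hprim a (Finset.mem_inter.1 ha).2 b (Finset.mem_inter.1 hb).2)
    rw [div_le_iff₀ (Sw_pos σ₁ t ht1)] at h3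
    have h4 : g t = Sw σ₁ (Finset.Icc 1 t ∩ A) := gs_eq σ₁ A t
    have h5 := (hT t ht).2.1
    have h6 : F (pw σ₁) t * Sw σ₁ (Finset.Icc 1 t) ≤ (L + η) * Sw σ₁ (Finset.Icc 1 t) :=
      mul_le_mul_of_nonneg_right h5.le (Sw_nonneg _ _)
    show 0 ≤ (L + η) * Sw σ₁ (Finset.Icc 1 t) - g t
    linarith
  have hdl : ∀ t, -s0 ≤ d t := by
    intro t
    rcases le_total T t with ht | ht
    · linarith [hd0 t ht]
    · have h3 : g t ≤ s t := gs_le σ₁ A t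
      have h4 : s t ≤ s0 := by
        rw [hs0]; exact Sw_mono σ₁ (Finset.Icc_subset_Icc_right ht)
      have h5 : 0 ≤ s t := Sw_nonneg _ _
      show -s0 ≤ (L + η) * s t - g t
      nlinarith
  have hcpos : ∀ t : ℕ, 1 ≤ t → 0 ≤ c t := by
    intro t ht
    have h3 := diff_lower τ hτ0.le (by linarith) t ht
    refine le_trans ?_ h3
    positivity
  -- equation (I)
  have hI : ∑ t ∈ Finset.Ico 0 n, c t * d t ≤ 2 * η * Sw σ₂ (Finset.Icc 1 n) := by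
    have e1 := abel_w σ₁ τ A 0 n (Nat.zero_le n)
    have e2 := abel_w σ₁ τ (Finset.Icc 1 n) 0 n (Nat.zero_le n)
    have e3 : Finset.Ioc 0 n ∩ A = A := by
      apply Finset.inter_eq_right.2
      intro a ha
      have := Finset.mem_Icc.1 (hA ha)
      rw [Finset.mem_Ioc]; omega
    have e4 : Finset.Ioc 0 n ∩ Finset.Icc 1 n = Finset.Icc 1 n := by
      ext a; rw [Finset.mem_inter, Finset.mem_Ioc, Finset.mem_Icc]; omega
    have e5 : σ₁ + τ = σ₂ := by rw [hτ]; ring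
    have e6 : ∀ X : Finset ℕ, gs σ₁ X 0 = 0 := fun X => by simp [gs]
    rw [e3, e5, e6, mul_zero, sub_zero] at e1
    rw [e4, e5, e6, mul_zero, sub_zero] at e2
    have e7 : ∑ t ∈ Finset.Ico 0 n, ((t : ℝ) ^ (-τ) - ((t + 1 : ℕ) : ℝ) ^ (-τ)) *
        gs σ₁ (Finset.Icc 1 n) t = ∑ t ∈ Finset.Ico 0 n, c t * s t := by
      apply Finset.sum_congr rfl
      intro t ht
      rw [gs_full σ₁ n t (Finset.mem_Ico.1 ht).2.le]
    rw [e7, gs_full σ₁ n n (le_refl _)] at e2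
    have e8 : ∑ t ∈ Finset.Ico 0 n, c t * d t =
        (L + η) * ∑ t ∈ Finset.Ico 0 n, c t * s t - ∑ t ∈ Finset.Ico 0 n, c t * g t := by
      rw [Finset.mul_sum, ← Finset.sum_sub_distrib]
      apply Finset.sum_congr rfl
      intro t _
      show c t * ((L + η) * s t - g t) = _
      ring
    have e9 : ∑ t ∈ Finset.Ico 0 n, c t * g t = Sw σ₂ A - (n : ℝ) ^ (-τ) * g n := by
      have : Sw σ₂ A = (n : ℝ) ^ (-τ) * g n + ∑ t ∈ Finset.Ico 0 n, c t * g t := e1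
      linarith
    have e10 : ∑ t ∈ Finset.Ico 0 n, c t * s t =
        Sw σ₂ (Finset.Icc 1 n) - (n : ℝ) ^ (-τ) * s n := by
      have : Sw σ₂ (Finset.Icc 1 n) = (n : ℝ) ^ (-τ) * s n +
        ∑ t ∈ Finset.Ico 0 n, c t * s t := e2
      linarith
    have e11 : (L - η) * Sw σ₂ (Finset.Icc 1 n) ≤ Sw σ₂ A := by
      have h3 : F (pw σ₂) n * Sw σ₂ (Finset.Icc 1 n) = Sw σ₂ A := by
        rw [hF, div_mul_cancel₀ _ (Sw_pos σ₂ n hn1).ne']
      rw [← h3]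
      apply mul_le_mul_of_nonneg_right _ (Sw_nonneg _ _)
      have := (hT n hnT).1
      linarith
    have e12 : 0 ≤ (n : ℝ) ^ (-τ) * d n := mul_nonneg (by positivity) (hd0 n hnT)
    have e13 : (n : ℝ) ^ (-τ) * d n = (L + η) * ((n : ℝ) ^ (-τ) * s n) - (n : ℝ) ^ (-τ) * g n := by
      show (n : ℝ) ^ (-τ) * ((L + η) * s n - g n) = _
      ring
    rw [e8, e9, e10]
    nlinarith
  have hI2 : ∑ t ∈ Finset.Ico m n, c t * d t ≤ 2 * η * Sw σ₂ (Finset.Icc 1 n) + s0 := by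
    have e1 : ∑ t ∈ Finset.Ico 0 n, c t * d t = c 0 * d 0 + ∑ t ∈ Finset.Ico 1 m, c t * d t +
        ∑ t ∈ Finset.Ico m n, c t * d t := by
      rw [← Finset.sum_Ico_consecutive _ (Nat.zero_le 1) (by omega : 1 ≤ n),
        ← Finset.sum_Ico_consecutive _ hm1 hmn]
      simp
      ring
    have e2 : d 0 = 0 := by
      show (L + η) * Sw σ₁ (Finset.Icc 1 0) - gs σ₁ A 0 = 0
      simp [Sw, gs]
    have e3 : -s0 ≤ ∑ t ∈ Finset.Ico 1 m, c t * d t := by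
      have h3 : ∑ t ∈ Finset.Ico 1 m, c t * (-s0) ≤ ∑ t ∈ Finset.Ico 1 m, c t * d t := by
        apply Finset.sum_le_sum
        intro t ht
        exact mul_le_mul_of_nonneg_left (hdl t) (hcpos t (Finset.mem_Ico.1 ht).1)
      refine le_trans ?_ h3
      rw [← Finset.sum_mul]
      have h4 : ∑ t ∈ Finset.Ico 1 m, c t = (1 : ℝ) ^ (-τ) - (m : ℝ) ^ (-τ) := by
        have h5 := Finset.sum_Ico_sub (fun t : ℕ => -((t : ℝ) ^ (-τ))) hm1
        have h6 : ∑ t ∈ Finset.Ico 1 m, c t =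
            ∑ i ∈ Finset.Ico 1 m, (-(((i + 1 : ℕ) : ℝ) ^ (-τ)) - -((i : ℝ) ^ (-τ))) := by
          apply Finset.sum_congr rfl
          intro t _
          show (t : ℝ) ^ (-τ) - ((t + 1 : ℕ) : ℝ) ^ (-τ) = _
          ring
        rw [h6, h5]
        push_cast
        ring
      rw [h4, Real.one_rpow]
      have h5 : 0 ≤ (m : ℝ) ^ (-τ) := by positivity
      nlinarith
    rw [e1, e2, mul_zero, zero_add] at hI
    linarith
  -- equation (II)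
  have hII : (L + η) * H m n - ∑ a ∈ Finset.Ioc m n ∩ A, 1 / (a : ℝ) ≤
      (n : ℝ) ^ (-τ') * d n + ∑ t ∈ Finset.Ico m n, c' t * d t := by
    have e1 := abel_w σ₁ τ' A m n hmn
    have e2 := abel_w σ₁ τ' (Finset.Icc 1 n) m n hmn
    have e4 : Finset.Ioc m n ∩ Finset.Icc 1 n = Finset.Ioc m n := by
      ext a; rw [Finset.mem_inter, Finset.mem_Ioc, Finset.mem_Icc]; omega
    have e5 : σ₁ + τ' = 1 := by rw [hτ']; ring
    have e6 : ∀ X : Finset ℕ, ∑ a ∈ X, (a : ℝ) ^ (-(1 : ℝ)) = ∑ a ∈ X, 1 / (a : ℝ) := by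
      intro X
      apply Finset.sum_congr rfl
      intro a _
      rw [Real.rpow_neg_one, one_div]
    rw [e5, e6] at e1
    rw [e5, e6, e4] at e2
    have e7 : ∑ t ∈ Finset.Ico m n, ((t : ℝ) ^ (-τ') - ((t + 1 : ℕ) : ℝ) ^ (-τ')) *
        gs σ₁ (Finset.Icc 1 n) t = ∑ t ∈ Finset.Ico m n, c' t * s t := by
      apply Finset.sum_congr rfl
      intro t ht
      rw [gs_full σ₁ n t (Finset.mem_Ico.1 ht).2.le]
    rw [e7, gs_full σ₁ n n (le_refl _), gs_full σ₁ n m hmn] at e2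
    have e8 : ∑ t ∈ Finset.Ico m n, c' t * d t =
        (L + η) * ∑ t ∈ Finset.Ico m n, c' t * s t - ∑ t ∈ Finset.Ico m n, c' t * g t := by
      rw [Finset.mul_sum, ← Finset.sum_sub_distrib]
      apply Finset.sum_congr rfl
      intro t _
      show c' t * ((L + η) * s t - g t) = _
      ring
    have e9 : 0 ≤ (m : ℝ) ^ (-τ') * d m := mul_nonneg (by positivity) (hd0 m hmT)
    have e10 : (m : ℝ) ^ (-τ') * d m = (L + η) * ((m : ℝ) ^ (-τ') * s m) - (m : ℝ) ^ (-τ') * g m := by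
      show (m : ℝ) ^ (-τ') * ((L + η) * s m - g m) = _
      ring
    have e11 : (n : ℝ) ^ (-τ') * d n = (L + η) * ((n : ℝ) ^ (-τ') * s n) - (n : ℝ) ^ (-τ') * g n := by
      show (n : ℝ) ^ (-τ') * ((L + η) * s n - g n) = _
      ring
    have e12 : H m n = (n : ℝ) ^ (-τ') * s n - (m : ℝ) ^ (-τ') * s m +
        ∑ t ∈ Finset.Ico m n, c' t * s t := e2
    have e13 : ∑ a ∈ Finset.Ioc m n ∩ A, 1 / (a : ℝ) = (n : ℝ) ^ (-τ') * g n -
        (m : ℝ) ^ (-τ') * g m + ∑ t ∈ Finset.Ico m n, c' t * g t := e1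
    rw [e8, e12, e13]
    nlinarith
  have hterm1 : (n : ℝ) ^ (-τ') * d n ≤ 2 / (1 - σ₁) := by
    have h3 : d n ≤ 2 * ((n : ℝ) ^ (1 - σ₁) / (1 - σ₁)) := by
      have h4 : s n ≤ (n : ℝ) ^ (1 - σ₁) / (1 - σ₁) := Sw_upper σ₁ h0 hσ1 n
      have h5 : 0 ≤ s n := Sw_nonneg _ _
      have h6 : 0 ≤ g n := gs_nonneg _ _ _
      show (L + η) * s n - g n ≤ _
      nlinarith
    have h4 : (n : ℝ) ^ (-τ') * (n : ℝ) ^ (1 - σ₁) = 1 := by
      rw [← Real.rpow_add hn0, hτ']; simp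
    have h5 : 0 < (n : ℝ) ^ (-τ') := Real.rpow_pos_of_pos hn0 _
    calc (n : ℝ) ^ (-τ') * d n ≤ (n : ℝ) ^ (-τ') * (2 * ((n : ℝ) ^ (1 - σ₁) / (1 - σ₁))) := by gcongr
      _ = 2 * ((n : ℝ) ^ (-τ') * (n : ℝ) ^ (1 - σ₁)) / (1 - σ₁) := by ring
      _ = 2 / (1 - σ₁) := by rw [h4, mul_one]
  have hterm2 : ∑ t ∈ Finset.Ico m n, c' t * d t ≤ 2 := by
    obtain ⟨ρ, hρ⟩ : ∃ ρ, ρ = 1 / τ * (m : ℝ) ^ (-(τ' - τ)) := ⟨_, rfl⟩
    have hρ0 : 0 ≤ ρ := by rw [hρ]; positivity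
    have h3 : ∑ t ∈ Finset.Ico m n, c' t * d t ≤ ρ * ∑ t ∈ Finset.Ico m n, c t * d t := by
      rw [Finset.mul_sum]
      apply Finset.sum_le_sum
      intro t ht
      have ht1 := Finset.mem_Ico.1 ht
      have h4 := diff_compare τ τ' hτ0 hττ hτ'1 m t hm1 ht1.1
      rw [← hρ] at h4
      have h5 := hd0 t (by omega)
      calc c' t * d t ≤ (ρ * c t) * d t := mul_le_mul_of_nonneg_right h4 h5
        _ = ρ * (c t * d t) := by ring
    have h4 : ρ * ∑ t ∈ Finset.Ico m n, c t * d t ≤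
        ρ * (2 * η * ((n : ℝ) ^ (1 - σ₂) / (1 - σ₂)) + s0) := by
      apply mul_le_mul_of_nonneg_left _ hρ0
      refine hI2.trans ?_
      have := Sw_upper σ₂ (by linarith) h2 n
      gcongr
    have h5 : ρ * s0 ≤ 1 := by rw [hρ]; exact hM1 m (by omega)
    have h6 : ρ * (n : ℝ) ^ (1 - σ₂) ≤ 1 / τ * (2 * Q) := by
      rw [hρ, mul_assoc]
      have h7 : (m : ℝ) ^ (-(τ' - τ)) * (n : ℝ) ^ (1 - σ₂) ≤ 2 * Q := by
        have h8 : (n : ℝ) ^ (1 - σ₂) ≤ (2 * Q * m : ℝ) ^ (1 - σ₂) :=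
          Real.rpow_le_rpow hn0.le hnm hβ₂.le
        have h9 : (2 * Q * m : ℝ) ^ (1 - σ₂) = (2 * Q : ℝ) ^ (1 - σ₂) * (m : ℝ) ^ (1 - σ₂) :=
          Real.mul_rpow (by positivity) hm0.le
        have h10 : (2 * Q : ℝ) ^ (1 - σ₂) ≤ 2 * Q := by
          have h11 : (1 : ℝ) ≤ 2 * Q := by
            have : (1 : ℝ) ≤ Q := by exact_mod_cast hQ1
            linarith
          have h12 := Real.rpow_le_rpow_of_exponent_le h11 (by linarith : 1 - σ₂ ≤ 1)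
          rwa [Real.rpow_one] at h12
        have h11 : (m : ℝ) ^ (-(τ' - τ)) * (m : ℝ) ^ (1 - σ₂) = 1 := by
          rw [← Real.rpow_add hm0, hdiff]; simp
        have h12 : 0 < (m : ℝ) ^ (-(τ' - τ)) := Real.rpow_pos_of_pos hm0 _
        calc (m : ℝ) ^ (-(τ' - τ)) * (n : ℝ) ^ (1 - σ₂)
            ≤ (m : ℝ) ^ (-(τ' - τ)) * ((2 * Q : ℝ) ^ (1 - σ₂) * (m : ℝ) ^ (1 - σ₂)) := by
              rw [← h9]; gcongr
          _ = (2 * Q : ℝ) ^ (1 - σ₂) * ((m : ℝ) ^ (-(τ' - τ)) * (m : ℝ) ^ (1 - σ₂)) := by ring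
          _ = (2 * Q : ℝ) ^ (1 - σ₂) := by rw [h11, mul_one]
          _ ≤ 2 * Q := h10
      gcongr
    have h7 : ρ * (2 * η * ((n : ℝ) ^ (1 - σ₂) / (1 - σ₂)) + s0) ≤ 2 := by
      have h8 : ρ * (2 * η * ((n : ℝ) ^ (1 - σ₂) / (1 - σ₂))) ≤ 1 := by
        calc ρ * (2 * η * ((n : ℝ) ^ (1 - σ₂) / (1 - σ₂)))
            = (2 * η / (1 - σ₂)) * (ρ * (n : ℝ) ^ (1 - σ₂)) := by ring
          _ ≤ (2 * η / (1 - σ₂)) * (1 / τ * (2 * Q)) := by gcongr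
          _ = 4 * η * Q / (τ * (1 - σ₂)) := by field_simp; ring
          _ ≤ 1 := hηQ
      rw [mul_add]
      linarith
    linarith
  have hB := hC m n hmn (Finset.Ioc m n ∩ A) Finset.inter_subset_left
    (fun a ha b hb => hprim a (Finset.mem_inter.1 ha).2 b (Finset.mem_inter.1 hb).2)
  have hH : (j : ℝ) / 2 ≤ H m n := by
    rw [hm, hQ]
    apply H_pow
    rw [← hQ]
    nlinarith
  have hHn := H_nonneg m n
  nlinarith

theorem main_one (σ₁ : ℝ) (h0 : 0 ≤ σ₁) (h1 : σ₁ < 1) :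
    ∀ᶠ n : ℕ in atTop, F (pw 1) n < F (pw σ₁) n := by
  obtain ⟨C, hC0, hC⟩ := behrend ((1 - σ₁) / 8) (by linarith)
  have hβ : 0 < 1 - σ₁ := by linarith
  obtain ⟨j, hj⟩ := exists_nat_gt (C / ((1 - σ₁) / 16))
  rw [div_lt_iff₀ (by positivity)] at hj
  filter_upwards [eventually_ge_atTop (2 ^ j)] with n hn
  have hn1 : 1 ≤ n := le_trans Nat.one_le_two_pow hn
  have h2 := F_lower σ₁ h0 h1 n hn1
  refine lt_of_lt_of_le ?_ h2
  obtain ⟨A, hA, hprim, hF⟩ := exists_F 1 n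
  have e6 : ∀ X : Finset ℕ, Sw 1 X = ∑ a ∈ X, 1 / (a : ℝ) := by
    intro X
    apply Finset.sum_congr rfl
    intro a _
    rw [Real.rpow_neg_one, one_div]
  have hIoc : Finset.Ioc 0 n = Finset.Icc 1 n := by
    ext a; rw [Finset.mem_Ioc, Finset.mem_Icc]; omega
  have hH : Sw 1 (Finset.Icc 1 n) = H 0 n := by
    rw [e6, ← hIoc]; rfl
  have h3 := hC 0 n (Nat.zero_le n) A (by rw [hIoc]; exact hA) hprim
  have h4 : (j : ℝ) / 2 ≤ H 0 n := by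
    have h5 := H_pow j n hn
    have h6 := H_add (Nat.zero_le (n / 2 ^ j)) (Nat.div_le_self n (2 ^ j))
    have h7 := H_nonneg 0 (n / 2 ^ j)
    linarith
  have hpos : 0 < H 0 n := by rw [← hH]; exact Sw_pos 1 n hn1
  rw [hF, hH, div_lt_iff₀ hpos, e6]
  nlinarith

/-- For all `0 ≤ σ₁ < σ₂ ≤ 1` there is `n₀` with `F(f_{σ₁}, n) > F(f_{σ₂}, n)` for all
`n > n₀`. -/
theorem result : ∀ σ₁ σ₂ : ℝ, 0 ≤ σ₁ → σ₁ < σ₂ → σ₂ ≤ 1 →
    ∃ n₀ : ℕ, ∀ n : ℕ, n₀ < n → F (pw σ₂) n < F (pw σ₁) n := by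
  intro σ₁ σ₂ h0 h12 h2
  have h3 : ∀ᶠ n : ℕ in atTop, F (pw σ₂) n < F (pw σ₁) n := by
    rcases h2.lt_or_eq with h | h
    · exact main_lt σ₁ σ₂ h0 h12 h
    · subst h
      exact main_one σ₁ h0 h12
  obtain ⟨n₀, hn₀⟩ := eventually_atTop.1 h3
  exact ⟨n₀, fun n hn => hn₀ n hn.le⟩

end Pool.Agent.Results.MP_def192_nt.PowerWeights
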